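import Pool.Agent.H842R2.Final

/-! Finiteness for algebraic 2-complexes over the group ring of a finite group. -/

open Matrix

namespace Y219.SH

open H970SH H842

/-- Euler characteristic of an algebraic 2-complex -/
def chiC {G : Type} [Group G] (C : Cx (MonoidAlgebra ℤ G)) : ℤ :=
  1 - Fintype.card C.X + Fintype.card C.Y

theorem hasTor_zero {G : Type} [Group G] (C : Cx (MonoidAlgebra ℤ G)) : HasTor C C 0 := by
  have := HasTor.self (C := C) (1 : (Matrix C.Y C.Y (MonoidAlgebra ℤ G))ˣ) (by simp)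
  rwa [cl_one, map_zero] at this

/-- for one complex: a subgroup of finite index of torsions of self-equivalences -/
theorem exists_sub {G : Type} [Group G] [Finite G] (C : Cx (MonoidAlgebra ℤ G)) (hC : Ex C) :
    ∃ T : AddSubgroup (Wh G), T.FiniteIndex ∧ ∀ τ ∈ T, HasTor C C τ := by
  classical
  have : Fintype G := Fintype.ofFinite G
  have hcardpos : Fintype.card G ≠ 0 := Fintype.card_ne_zero
  have hXY : Fintype.card C.X ≤ Fintype.card C.Y := by
    have h2 := finrank_Mod2 C hC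
    by_contra hlt
    push Not at hlt
    have h3 : (Fintype.card C.Y + 1) * Fintype.card G ≤
      Fintype.card C.X * Fintype.card G := Nat.mul_le_mul_right _ hlt
    rw [add_mul, one_mul] at h3
    omega
  obtain ⟨k, j, i, hk, hj, hji⟩ := exists_pair G C.D2 C.D1
    (by
      intro a
      constructor
      · rintro ⟨v, rfl⟩
        exact hC.im1' (v ())
      · intro ha
        obtain ⟨v, hv⟩ := hC.im1 a ha
        exact ⟨fun _ => v, congrFun hv ()⟩)
    (by
      intro v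
      constructor
      · intro hv
        obtain ⟨w, hw⟩ := hC.ex (v ()) (congrFun hv ())
        refine ⟨fun _ => w, ?_⟩
        funext t
        exact hw
      · rintro ⟨w, rfl⟩
        rw [Matrix.mul_assoc, hC.dd, Matrix.mul_zero])
    hXY
  let m := k * Fintype.card G
  have hm : 0 < m := Nat.mul_pos hk (Nat.pos_of_ne_zero hcardpos)
  have hfin := finite_quot G m hm
  let T : AddSubgroup (Wh G) := (unitsMod G m).map (whc G)
  have hfinT : Finite (Wh G ⧸ T) := by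
    let q : (K1 (MonoidAlgebra ℤ G) ⧸ unitsMod G m) →+ (Wh G ⧸ T) :=
      QuotientAddGroup.map _ _ (whc G) (AddSubgroup.le_comap_map _ _)
    apply Finite.of_surjective q
    intro x
    obtain ⟨y, rfl⟩ := QuotientAddGroup.mk'_surjective _ x
    obtain ⟨z, rfl⟩ := whc_surjective y
    exact ⟨QuotientAddGroup.mk' _ z, rfl⟩
  refine ⟨T, AddSubgroup.finiteIndex_of_finite_quotient, ?_⟩
  rintro τ ⟨c, hc, rfl⟩
  exact self_tor C hC k j i hj hji c hc

/-- finitely many polarised homotopy types of algebraic 2-complexes -/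
theorem exists_types (G : Type) [Group G] [Finite G] (n : ℤ) :
    ∃ S : Set (Cx (MonoidAlgebra ℤ G)), S.Finite ∧ (∀ L ∈ S, Ex L ∧ chiC L = n) ∧
      ∀ C, Ex C → chiC C = n → ∃ L ∈ S, ∃ v, HasTor C L v := by
  classical
  have : Fintype G := Fintype.ofFinite G
  let PP : Type 1 := {C : Cx (MonoidAlgebra ℤ G) // Ex C ∧ chiC C = n}
  have hchi : ∀ p q : PP, Fintype.card p.1.Y + Fintype.card q.1.X =
      Fintype.card p.1.X + Fintype.card q.1.Y := by
    intro p q
    have h1 : (1 : ℤ) - Fintype.card p.1.X + Fintype.card p.1.Y = n := p.2.2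
    have h2 : (1 : ℤ) - Fintype.card q.1.X + Fintype.card q.1.Y = n := q.2.2
    omega
  let R : PP → PP → Prop := fun p q => ∃ v, HasTor p.1 q.1 v
  have key : ∃ S : Set PP, S.Finite ∧ ∀ a, ∃ b ∈ S, R a b := by
    by_cases hne : Nonempty PP
    swap
    · exact ⟨∅, Set.finite_empty, fun a => (hne ⟨a⟩).elim⟩
    obtain ⟨p0⟩ := hne
    let d := Module.finrank ℤ (Mod2 p0.1)
    have hd : ∀ p : PP, Module.finrank ℤ (Mod2 p.1) = d := by
      intro p
      have h1 := finrank_Mod2 p.1 p.2.1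
      have h2 := finrank_Mod2 p0.1 p0.2.1
      have h3 := hchi p p0
      have h4 := congrArg (fun t => t * Fintype.card G) h3
      simp only [add_mul] at h4
      show _ = Module.finrank ℤ (Mod2 p0.1)
      omega
    obtain ⟨Φ, hΦfin, hΦ⟩ := finite_conj d
    have hb : ∀ p : PP, ∃ b : Module.Basis (Fin d) ℤ (Mod2 p.1), ∀ g : G, ∃ u ∈ Φ, ∀ i j,
      b.repr (MonoidAlgebra.of ℤ G g • b i) j = (u : Matrix (Fin d) (Fin d) ℤ) j i :=
      fun p => exists_good_basis d Φ (fun ρ => hΦ G ρ) (Mod2 p.1) (hd p)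
    choose b u hu hb using hb
    have hf : ∀ p : PP, ∃ (f1 : Matrix p0.1.X p.1.X (MonoidAlgebra ℤ G))
        (f2 : Matrix p0.1.Y p.1.Y (MonoidAlgebra ℤ G)),
        p0.1.D1 = f1 * p.1.D1 ∧ p0.1.D2 * f1 = f2 * p.1.D2 :=
      fun p => exists_chainMap p0.2.1 p.2.1
    choose f1 f2 hf1 hf2 using hf
    have : Finite Φ := hΦfin
    have hcardpos : Fintype.card G ≠ 0 := Fintype.card_ne_zero
    have : NeZero (Fintype.card G) := ⟨hcardpos⟩
    let I : PP → (G → Φ) × (Fin d → Fin d → ZMod (Fintype.card G)) := fun p =>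
      (fun g => ⟨u p g, hu p g⟩,
        fun i j => (((b p).repr (resMap (f1 p) (f2 p) (hf2 p) (b p0 i)) j : ℤ) :
          ZMod (Fintype.card G)))
    apply fincov R I
    intro κ
    by_cases hκ : ∃ p, I p = κ
    swap
    · exact ⟨∅, Set.finite_empty, fun a ha => (hκ ⟨a, ha⟩).elim⟩
    obtain ⟨pc, hpc⟩ := hκ
    refine ⟨{pc}, Set.finite_singleton _, fun p hp => ⟨pc, rfl, ?_⟩⟩
    have hI : I p = I pc := hp.trans hpc.symm
    refine kinv p0.1 p.1 pc.1 p0.2.1 p.2.1 pc.2.1 (hchi p pc) (b p0) (b p) (b pc)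
      ?_ (f1 p) (f2 p) (hf1 p) (hf2 p) (f1 pc) (f2 pc) (hf1 pc) (hf2 pc) ?_
    · intro g i j
      have h1 : u p g = u pc g := by
        have := congrFun (congrArg Prod.fst hI) g
        exact congrArg Subtype.val this
      rw [hb, hb, h1]
    · intro i j
      have h1 := congrFun (congrFun (congrArg Prod.snd hI) i) j
      exact (ZMod.intCast_eq_intCast_iff_dvd_sub _ _ _).mp h1.symm
  obtain ⟨S, hS, hS'⟩ := key
  refine ⟨(fun p : PP => p.1) '' S, hS.image _, ?_, ?_⟩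
  · rintro L ⟨p, -, rfl⟩
    exact p.2
  · intro C hC hn
    obtain ⟨b, hb, v, hv⟩ := hS' ⟨C, hC, hn⟩
    exact ⟨b.1, ⟨b, hb, rfl⟩, v, hv⟩

/-- the torsions of self-equivalences only depend on the homotopy type -/
theorem hasTor_transfer {G : Type} [Group G] {C L : Cx (MonoidAlgebra ℤ G)} (hC : Ex C) (hL : Ex L)
    {v τ : Wh G} (h : HasTor C L v) (hτ : HasTor L L τ) : HasTor C C τ := by
  have h1 := (h.comp hτ).comp (h.symm hC.dd hL.dd)
  have h2 : v + τ + -v = τ := by abel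
  rwa [h2] at h1

/-- **Uniform version.** -/
theorem core (G : Type) [Group G] [Finite G] (n : ℤ) :
    ∃ T : AddSubgroup (Wh G), T.FiniteIndex ∧
      ∀ C : Cx (MonoidAlgebra ℤ G), Ex C → chiC C = n → ∀ τ ∈ T, HasTor C C τ := by
  obtain ⟨S, hS, hSE, hcov⟩ := exists_types G n
  have h1 : ∀ L : S, ∃ T : AddSubgroup (Wh G), T.FiniteIndex ∧ ∀ τ ∈ T, HasTor L.1 L.1 τ :=
    fun L => exists_sub L.1 (hSE L.1 L.2).1
  choose T hT hT' using h1
  have : Finite S := hS
  refine ⟨⨅ L : S, T L, AddSubgroup.finiteIndex_iInf hT, fun C hC hn τ hτ => ?_⟩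
  obtain ⟨L, hL, v, hv⟩ := hcov C hC hn
  exact hasTor_transfer hC (hSE L hL).1 hv (hT' ⟨L, hL⟩ τ ((AddSubgroup.mem_iInf.mp hτ) ⟨L, hL⟩))

/-- **Finiteness of the marked simple types.** -/
theorem marked (G : Type) [Group G] [Finite G] (n : ℤ) :
    ∃ (S : Set (Cx (MonoidAlgebra ℤ G))) (W : Set (Wh G)), S.Finite ∧ W.Finite ∧
      (∀ L ∈ S, Ex L ∧ chiC L = n) ∧
      ∀ C, Ex C → chiC C = n → ∀ w, ∃ L ∈ S, ∃ w' ∈ W, HasTor C L (w' - w) := by
  classical
  obtain ⟨T, hT, hself⟩ := core G n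
  obtain ⟨S, hS, hSE, hcov⟩ := exists_types G n
  have hfin : Finite (Wh G ⧸ T) := AddSubgroup.finite_quotient_of_finiteIndex
  refine ⟨S, Set.range (fun q : Wh G ⧸ T => q.out), hS, Set.finite_range _, hSE, ?_⟩
  intro C hC hn w
  obtain ⟨L, hL, v, hv⟩ := hcov C hC hn
  refine ⟨L, hL, ((w + v : Wh G) : Wh G ⧸ T).out, ⟨_, rfl⟩, ?_⟩
  have h1 : -(w + v) + ((w + v : Wh G) : Wh G ⧸ T).out ∈ T := by
    have h2 : (((w + v : Wh G) : Wh G ⧸ T)) = ((((w + v : Wh G) : Wh G ⧸ T).out : Wh G) : Wh G ⧸ T) :=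
      (QuotientAddGroup.out_eq' _).symm
    exact (QuotientAddGroup.eq (s := T)).mp h2
  have h3 := hv.comp (hself L (hSE L hL).1 (hSE L hL).2 _ h1)
  have h4 : v + (-(w + v) + ((w + v : Wh G) : Wh G ⧸ T).out) =
      ((w + v : Wh G) : Wh G ⧸ T).out - w := by abel
  rwa [h4] at h3

/-- **Finitely many simple types of algebraic 2-complexes.** -/
theorem simpleTypes (G : Type) [Group G] [Finite G] (n : ℤ) :
    ∃ S : Set (Cx (MonoidAlgebra ℤ G)), S.Finite ∧ (∀ L ∈ S, Ex L ∧ chiC L = n) ∧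
      ∀ C, Ex C → chiC C = n → ∃ L ∈ S, HasTor C L 0 := by
  classical
  obtain ⟨S, W, hS, hW, hSE, h⟩ := marked G n
  let good : Set (Cx (MonoidAlgebra ℤ G) × Wh G) :=
    {p | p.1 ∈ S ∧ p.2 ∈ W ∧ ∃ C, Ex C ∧ chiC C = n ∧ HasTor C p.1 p.2}
  have hg : good.Finite := (hS.prod hW).subset fun p hp => ⟨hp.1, hp.2.1⟩
  have hch : ∀ p : good, ∃ C, Ex C ∧ chiC C = n ∧ HasTor C p.1.1 p.1.2 := fun p => p.2.2.2
  choose c hcE hcn hcT using hch
  have : Finite good := hg
  refine ⟨Set.range c, Set.finite_range c, ?_, ?_⟩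
  · rintro L ⟨p, rfl⟩
    exact ⟨hcE p, hcn p⟩
  · intro C hC hn
    obtain ⟨L, hL, w', hw', hT⟩ := h C hC hn 0
    rw [sub_zero] at hT
    let p : good := ⟨(L, w'), hL, hw', C, hC, hn, hT⟩
    refine ⟨c p, ⟨p, rfl⟩, ?_⟩
    have h1 := hT.comp ((hcT p).symm (hcE p).dd (hSE L hL).1.dd)
    have h2 : w' + -w' = 0 := by abel
    rwa [show w' + -(p.1.2) = 0 from h2] at h1

end Y219.SH
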