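import Pool.Agent.Y219.SH.Core

/-! Torsions of the self-equivalences of a presentation complex. -/

open Matrix

namespace Y219.SH

open H970SH H842

/-- The cellular map `f` is a homotopy equivalence with Whitehead torsion `w`. -/
def TorsionIs {P Q : Pres} {φ : P.Pi1 ≃* Q.Pi1} (f : CellularMap P Q φ) (w : Wh Q.Pi1) : Prop :=
  ∃ (h : Contraction f) (N : ℕ) (e : P.Y ⊕ Q.X ≃ Fin N) (e' : P.X ⊕ Q.Y ≃ Fin N)
    (U : (Matrix (Fin N) (Fin N) (MonoidAlgebra ℤ Q.Pi1))ˣ),
    (U : Matrix (Fin N) (Fin N) (MonoidAlgebra ℤ Q.Pi1)) =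
        Matrix.reindex e e' (Matrix.fromRows f.bd3 h.s) ∧
      Wh.mk U = w

theorem simple_iff (P Q : Pres) : SimpleHomotopyEquivalent P Q ↔
    ∃ (φ : P.Pi1 ≃* Q.Pi1) (f : CellularMap P Q φ), TorsionIs f 0 := Iff.rfl

/-- The chain complex of the universal cover. -/
noncomputable abbrev cx (P : Pres) : Cx (MonoidAlgebra ℤ P.Pi1) := presCx P P.proj

theorem cx_Ex (P : Pres) : Ex (cx P) := pres_Ex' P (MulEquiv.refl _)

theorem torsionIs_of_hasTor (P : Pres) (w : Wh P.Pi1) (h : HasTor (cx P) (cx P) w) :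
    ∃ f : CellularMap P P (MulEquiv.refl P.Pi1), TorsionIs f w := by
  obtain ⟨f1, f2, s1, s2, h1, h2, h3, h4⟩ := h
  have hinv := h4.inv2
  obtain ⟨N, e, e', U, hU, hw⟩ := h4
  obtain ⟨Ψ, k1, k2⟩ := hinv
  have hcol : Ψ * fromRows (0 : Matrix (cx P).Y (cx P).X (MonoidAlgebra ℤ P.Pi1))
      (1 : Matrix (cx P).X (cx P).X (MonoidAlgebra ℤ P.Pi1)) = fromRows f1 (cx P).D2 := by
    have : fromBlocks (-(cx P).D2) f2 s1 s2 * fromRows f1 (cx P).D2 =
        fromRows (0 : Matrix (cx P).Y (cx P).X (MonoidAlgebra ℤ P.Pi1))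
          (1 : Matrix (cx P).X (cx P).X (MonoidAlgebra ℤ P.Pi1)) := by
      rw [fromBlocks_mul_fromRows, h3, Matrix.neg_mul, h2, neg_add_cancel]
    rw [← this, ← Matrix.mul_assoc, k2, Matrix.one_mul]
  have hΨ : Ψ = fromCols Ψ.toCols₁ (fromRows f1 (cx P).D2) := by
    rw [← hcol]
    refine Matrix.ext fun i j => ?_
    rcases j with j | j
    · rfl
    · rw [fromCols_apply_inr, Matrix.mul_apply, Fintype.sum_sum_type]
      simp [Matrix.one_apply]
  rw [hΨ, fromBlocks_eq_rows] at k1 k2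
  rw [fromRows_mul_fromCols] at k1
  rw [← fromBlocks_one, Matrix.fromBlocks_inj] at k1
  rw [fromCols_mul_fromRows] at k2
  obtain ⟨a1, a2, a3, a4⟩ := k1
  let f : CellularMap P P (MulEquiv.refl P.Pi1) :=
    { f₁ := f1
      f₂ := f2
      comm₁ := h1
      comm₂ := h2 }
  let c : Contraction f :=
    { s := fromCols s1 s2
      t := Ψ.toCols₁
      left := by
        show fromCols s1 s2 * fromRows f1 (cx P).D2 = 1
        rw [fromCols_mul_fromRows]
        exact h3
      mid := k2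
      right := a1 }
  refine ⟨f, c, N, e, e', U, ?_, hw⟩
  rw [hU, fromBlocks_eq_rows]
  rfl

theorem hasTor_of_torsionIs (P : Pres) (w : Wh P.Pi1)
    (f : CellularMap P P (MulEquiv.refl P.Pi1)) (h : TorsionIs f w) : HasTor (cx P) (cx P) w := by
  obtain ⟨c, N, e, e', U, hU, hw⟩ := h
  have hs : c.s = fromCols c.s.toCols₁ c.s.toCols₂ := (fromCols_toCols c.s).symm
  refine ⟨f.f₁, f.f₂, c.s.toCols₁, c.s.toCols₂, f.comm₁, f.comm₂, ?_, N, e, e', U, ?_, hw⟩
  · have h1 := c.left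
    rw [hs] at h1
    have h2 : fromCols c.s.toCols₁ c.s.toCols₂ * fromRows f.f₁ (bd2 P.proj P.rel) = 1 := h1
    rw [fromCols_mul_fromRows] at h2
    exact h2
  · rw [hU]
    have h3 : fromBlocks (-(bd2 P.proj P.rel)) f.f₂ c.s.toCols₁ c.s.toCols₂ =
        fromRows f.bd3 c.s := by
      rw [fromBlocks_eq_rows, fromCols_toCols]
      rfl
    exact congrArg (Matrix.reindex e e') h3.symm

/-- **Finite index.** The Whitehead torsions of the self-equivalences which induce the identity of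
the fundamental group form a subgroup of finite index. -/
theorem finiteIndex (P : Pres) [Finite P.Pi1] :
    ∃ T : AddSubgroup (Wh P.Pi1), T.FiniteIndex ∧
      ∀ w, w ∈ T ↔ ∃ f : CellularMap P P (MulEquiv.refl P.Pi1), TorsionIs f w := by
  have key : ∀ w, HasTor (cx P) (cx P) w ↔
      ∃ f : CellularMap P P (MulEquiv.refl P.Pi1), TorsionIs f w :=
    fun w => ⟨torsionIs_of_hasTor P w, fun ⟨f, hf⟩ => hasTor_of_torsionIs P w f hf⟩
  let T : AddSubgroup (Wh P.Pi1) :=
    { carrier := {w | HasTor (cx P) (cx P) w}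
      zero_mem' := hasTor_zero _
      add_mem' := fun ha hb => HasTor.comp ha hb
      neg_mem' := fun ha => HasTor.symm ha (cx_Ex P).dd (cx_Ex P).dd }
  obtain ⟨T0, hT0, h0⟩ := exists_sub (cx P) (cx_Ex P)
  refine ⟨T, ?_, fun w => (show w ∈ T ↔ HasTor (cx P) (cx P) w from Iff.rfl).trans (key w)⟩
  exact AddSubgroup.finiteIndex_of_le (H := T0) (fun τ hτ => h0 τ hτ)

end Y219.SH
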