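import Pool.Agent.Y219.SH.Geo

/-! Marked simple types of presentation complexes. -/

open Matrix

namespace Y219.SH

open H970SH H842

/-- The cellular chain complex of the universal cover of the standard complex of `K`, as a complex
of modules over the group ring of `G`, by the isomorphism `α`. -/
noncomputable abbrev cxOf {G : Type} [Group G] (K : Pres) (α : K.Pi1 ≃* G) :
    Cx (MonoidAlgebra ℤ G) := presCx K (theta K α)

theorem markedPres (G : Type) [Group G] [Finite G] (n : ℤ) :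
    ∃ (S : Set (Σ K : Pres, (K.Pi1 ≃* G))) (W : Set (Wh G)), S.Finite ∧ W.Finite ∧
      (∀ L ∈ S, 1 - (Fintype.card L.1.X : ℤ) + Fintype.card L.1.Y = n) ∧
      ∀ (K : Pres) (α : K.Pi1 ≃* G), 1 - (Fintype.card K.X : ℤ) + Fintype.card K.Y = n →
        ∀ w : Wh G, ∃ L ∈ S, ∃ w' ∈ W, HasTor (cxOf K α) (cxOf L.1 L.2) (w' - w) := by
  classical
  obtain ⟨T, hT, hself⟩ := core G n
  obtain ⟨S, hS, hSE, hcov⟩ := exists_types G n
  have hfin : Finite (Wh G ⧸ T) := AddSubgroup.finite_quotient_of_finiteIndex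
  let good : Set (Cx (MonoidAlgebra ℤ G)) :=
    {C | C ∈ S ∧ ∃ (p : Σ K : Pres, (K.Pi1 ≃* G)), chiC (cxOf p.1 p.2) = n ∧
      ∃ v, HasTor (cxOf p.1 p.2) C v}
  have hg : good.Finite := hS.subset fun p hp => hp.1
  have hch : ∀ C : good, ∃ (p : Σ K : Pres, (K.Pi1 ≃* G)), chiC (cxOf p.1 p.2) = n ∧
      ∃ v, HasTor (cxOf p.1 p.2) C.1 v := fun C => C.2.2
  choose c hcn hcT using hch
  have : Finite good := hg
  refine ⟨Set.range c, Set.range (fun q : Wh G ⧸ T => q.out), Set.finite_range c,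
    Set.finite_range _, ?_, ?_⟩
  · rintro L ⟨p, rfl⟩
    exact hcn p
  · intro K α hn w
    have hn' : chiC (cxOf K α) = n := hn
    obtain ⟨C, hC, v, hv⟩ := hcov (cxOf K α) (pres_Ex' K α) hn'
    let p : good := ⟨C, hC, ⟨K, α⟩, hn', v, hv⟩
    obtain ⟨v', hv'⟩ := hcT p
    have h0 := hv.comp (hv'.symm (pres_Ex' _ _).dd (hSE C hC).1.dd)
    have hLn : chiC (cxOf (c p).1 (c p).2) = n := hcn p
    refine ⟨c p, ⟨p, rfl⟩, ((w + (v + -v') : Wh G) : Wh G ⧸ T).out, ⟨_, rfl⟩, ?_⟩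
    have h1 : -(w + (v + -v')) + ((w + (v + -v') : Wh G) : Wh G ⧸ T).out ∈ T :=
      (QuotientAddGroup.eq (s := T)).mp (QuotientAddGroup.out_eq' _).symm
    have h3 := h0.comp (hself _ (pres_Ex' _ _) hLn _ h1)
    have h4 : v + -v' + (-(w + (v + -v')) + ((w + (v + -v') : Wh G) : Wh G ⧸ T).out) =
        ((w + (v + -v') : Wh G) : Wh G ⧸ T).out - w := by abel
    rwa [h4] at h3

end Y219.SH
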